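import Pool.Agent.Y377.IL.Stm

/-!
Project IL (owner helper377), job IL-PT: a proper ideal of `K[τ]` stable under the
coefficientwise derivation has a complex zero.
-/

set_option autoImplicit false

namespace Pool.Agent.Y884.IL

open MvPolynomial Pool.Agent.Y377.IL

variable {K : Type} [Field K] [Algebra ℂ K]

/-- the coefficient functions of the members of an ideal -/
def cf {τ : Type} (J : Ideal (MvPolynomial τ K)) : Submodule K ((τ →₀ ℕ) → K) where
  carrier := {g | ∃ f ∈ J, ∀ m, g m = coeff m f}
  zero_mem' := ⟨0, J.zero_mem, fun m => by rw [coeff_zero]; rfl⟩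
  add_mem' := by
    rintro a b ⟨f, hf, h1⟩ ⟨g, hg, h2⟩
    exact ⟨f + g, J.add_mem hf hg, fun m => by rw [Pi.add_apply, h1, h2, coeff_add]⟩
  smul_mem' := by
    rintro c a ⟨f, hf, h1⟩
    exact ⟨C c * f, J.mul_mem_left _ hf, fun m => by
      rw [Pi.smul_apply, h1, coeff_C_mul, smul_eq_mul]⟩

/-- a polynomial whose coefficients are complex numbers comes from `ℂ[τ]` -/
theorem lift_const {τ : Type} (f : MvPolynomial τ K)
    (h : ∀ m, ∃ c : ℂ, coeff m f = algebraMap ℂ K c) :
    ∃ f0 : MvPolynomial τ ℂ, MvPolynomial.map (algebraMap ℂ K) f0 = f := by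
  choose c hc using h
  refine ⟨∑ m ∈ f.support, monomial m (c m), ?_⟩
  rw [map_sum]
  conv_rhs => rw [f.as_sum]
  exact Finset.sum_congr rfl fun m _ => by rw [map_monomial, hc]

theorem t_PT : S_PT := by
  intro K _ _ D hD τ _ J e h1 h2 hJ hJt
  set φ : MvPolynomial τ ℂ →+* MvPolynomial τ K := MvPolynomial.map (algebraMap ℂ K) with hφ
  -- the ideal of the complex polynomials
  have hne : J.comap φ ≠ ⊤ := by
    intro h
    apply hJt
    rw [Ideal.eq_top_iff_one] at h ⊢
    rw [Ideal.mem_comap, map_one] at h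
    exact h
  obtain ⟨M, hM, hle⟩ := Ideal.exists_le_maximal _ hne
  obtain ⟨v, hv⟩ := (isMaximal_iff_eq_vanishingIdeal_singleton (K := ℂ)).1 hM
  refine ⟨v, fun f hf => ?_⟩
  -- descent
  have hmem : (fun m => coeff m f) ∈ cf J := ⟨f, hf, fun _ => rfl⟩
  have hfin : ∀ g ∈ cf J, (Function.support g).Finite := by
    rintro g ⟨p, -, hp⟩
    apply p.support.finite_toSet.subset
    intro m hm
    rw [Finset.mem_coe, mem_support_iff, ← hp]
    exact hm
  have hst : ∀ g ∈ cf J, (fun m => D (g m)) ∈ cf J := by
    rintro g ⟨p, hp, hp'⟩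
    exact ⟨e p, hJ p hp, fun m => by
      change D (g m) = _
      rw [hp', coeff_polyDer h1 h2]⟩
  have hsp := descent hD (cf J) hfin hst _ hmem
  -- evaluation
  have key : ∀ g ∈ Submodule.span K {g | g ∈ cf J ∧ ∀ m, ∃ c : ℂ, g m = algebraMap ℂ K c},
      ∀ p : MvPolynomial τ K, (∀ m, g m = coeff m p) →
        aeval (fun s => algebraMap ℂ K (v s)) p = 0 := by
    intro g hg
    induction hg using Submodule.span_induction with
    | mem g hg =>
      intro p hp
      obtain ⟨⟨q, hq, hq'⟩, hc⟩ := hg
      have hpq : p = q := by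
        ext m
        rw [← hp, hq']
      obtain ⟨f0, hf0⟩ := lift_const p fun m => by
        obtain ⟨c, hc'⟩ := hc m
        exact ⟨c, by rw [← hp, hc']⟩
      have h3 : f0 ∈ M := hle (by
        rw [Ideal.mem_comap, hφ, hf0, hpq]
        exact hq)
      rw [hv, mem_vanishingIdeal_singleton_iff] at h3
      rw [← hf0, aeval_map_algebraMap]
      have h4 := aeval_algebraMap_apply K v f0
      rw [h3, map_zero] at h4
      exact h4
    | zero =>
      intro p hp
      have : p = 0 := by
        ext m
        rw [← hp, coeff_zero]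
        rfl
      rw [this, map_zero]
    | add x y hx hy ihx ihy =>
      intro p hp
      have hV : ∀ z ∈ Submodule.span K
          {g | g ∈ cf J ∧ ∀ m, ∃ c : ℂ, g m = algebraMap ℂ K c}, z ∈ cf J := by
        intro z hz
        refine Submodule.span_le.2 ?_ hz
        rintro w ⟨hw, -⟩
        exact hw
      obtain ⟨px, -, hpx⟩ := hV x hx
      obtain ⟨py, -, hpy⟩ := hV y hy
      have : p = px + py := by
        ext m
        rw [← hp, Pi.add_apply, hpx, hpy, coeff_add]
      rw [this, map_add, ihx px hpx, ihy py hpy, add_zero]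
    | smul a x hx ih =>
      intro p hp
      have hV : x ∈ cf J := by
        refine Submodule.span_le.2 ?_ hx
        rintro w ⟨hw, -⟩
        exact hw
      obtain ⟨px, -, hpx⟩ := hV
      have : p = C a * px := by
        ext m
        rw [← hp, Pi.smul_apply, hpx, coeff_C_mul, smul_eq_mul]
      rw [this, map_mul, ih px hpx, mul_zero]
  exact key _ hsp f fun _ => rfl

end Pool.Agent.Y884.IL
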