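import Pool.Agent.Y377.IL.StmA
import Pool.Agent.Y377.EL.Fn

/-!
Project IL (owner helper377), job IL-FRC: the derivation of the fraction field of the ring of
formal power series, and its constants.
-/

set_option autoImplicit false

namespace Pool.Agent.Y884.IL

open PowerSeries Pool.Agent.Y377.IL

theorem coeff_low {F G : PowerSeries ℂ} {k m : ℕ} (hF : ∀ i < k, coeff i F = 0)
    (hG : ∀ j < m, coeff j G = 0) : coeff (k + m) (F * G) = coeff k F * coeff m G := by
  rw [coeff_mul, Finset.sum_eq_single (k, m)]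
  · rintro ⟨i, j⟩ hij hne
    rw [Finset.HasAntidiagonal.mem_antidiagonal] at hij
    rcases lt_trichotomy i k with h | h | h
    · rw [hF i h, zero_mul]
    · exact absurd (Prod.ext h (by simp only at hij ⊢; omega)) hne
    · rw [hG j (by simp only at hij; omega), mul_zero]
  · intro h
    exact absurd (Finset.HasAntidiagonal.mem_antidiagonal.2 (rfl : (k, m).1 + (k, m).2 = k + m)) h

theorem coeff_euler (F : PowerSeries ℂ) (n : ℕ) :
    coeff n (PowerSeries.X * PowerSeries.derivative ℂ F) = n * coeff n F := by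
  cases n with
  | zero =>
    rw [coeff_zero_X_mul]
    simp
  | succ n =>
    rw [coeff_succ_X_mul, coeff_derivative]
    push_cast
    ring

theorem exists_low {F : PowerSeries ℂ} (hF : F ≠ 0) :
    ∃ k, coeff k F ≠ 0 ∧ ∀ i < k, coeff i F = 0 := by
  classical
  have h : ∃ k, coeff k F ≠ 0 := by
    by_contra h
    push Not at h
    exact hF (PowerSeries.ext fun n => by rw [h n, map_zero])
  exact ⟨Nat.find h, Nat.find_spec h, fun i hi => by
    have := Nat.find_min h hi
    rwa [not_not] at this⟩

theorem low_eq {a b : PowerSeries ℂ} {k m : ℕ} (ha : coeff k a ≠ 0) (ha' : ∀ i < k, coeff i a = 0)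
    (hb : coeff m b ≠ 0) (hb' : ∀ i < m, coeff i b = 0)
    (h : PowerSeries.derivative ℂ a * b = a * PowerSeries.derivative ℂ b) : k = m := by
  have h1 : (PowerSeries.X * PowerSeries.derivative ℂ a) * b =
      a * (PowerSeries.X * PowerSeries.derivative ℂ b) := by
    linear_combination PowerSeries.X * h
  have h2 := congrArg (coeff (k + m)) h1
  rw [coeff_low (fun i hi => by rw [coeff_euler, ha' i hi, mul_zero]) hb',
    coeff_low ha' (fun i hi => by rw [coeff_euler, hb' i hi, mul_zero]), coeff_euler,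
    coeff_euler] at h2
  have h3 : ((k : ℂ) - m) * (coeff k a * coeff m b) = 0 := by linear_combination h2
  rcases mul_eq_zero.1 h3 with h4 | h4
  · exact_mod_cast sub_eq_zero.1 h4
  · rcases mul_eq_zero.1 h4 with h5 | h5
    · exact absurd h5 ha
    · exact absurd h5 hb

/-- two power series with the same logarithmic derivative are proportional -/
theorem prop_of {a b : PowerSeries ℂ} (hb : b ≠ 0)
    (h : PowerSeries.derivative ℂ a * b = a * PowerSeries.derivative ℂ b) :
    ∃ c : ℂ, a = PowerSeries.C c * b := by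
  by_cases ha : a = 0
  · exact ⟨0, by rw [ha, map_zero, zero_mul]⟩
  obtain ⟨m, hm, hm'⟩ := exists_low hb
  obtain ⟨k, hk, hk'⟩ := exists_low ha
  have hkm : k = m := low_eq hk hk' hm hm' h
  subst hkm
  refine ⟨coeff k a / coeff k b, ?_⟩
  set c := coeff k a / coeff k b with hc
  by_contra hne
  set d := a - PowerSeries.C c * b with hd
  have hd0 : d ≠ 0 := fun h0 => hne (sub_eq_zero.1 h0)
  obtain ⟨l, hl, hl'⟩ := exists_low hd0
  have h1 : PowerSeries.derivative ℂ d * b = d * PowerSeries.derivative ℂ b := by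
    rw [hd, map_sub, Derivation.leibniz, derivative_C, smul_zero, add_zero, smul_eq_mul]
    linear_combination h
  have h2 : l = k := low_eq hl hl' hm hm' h1
  apply hl
  rw [h2, hd, map_sub, coeff_C_mul, hc, div_mul_cancel₀ _ hm, sub_self]

theorem t_FRC : S_FRC := by
  obtain ⟨D, hD⟩ := Pool.Agent.Y377.EL.exists_derFrac (PowerSeries.derivative ℂ)
  refine ⟨D, hD, fun x hx => ?_⟩
  obtain ⟨a, b, hb, rfl⟩ := IsFractionRing.div_surjective (A := PowerSeries ℂ) x
  have hb0 : b ≠ 0 := nonZeroDivisors.ne_zero hb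
  have hbK : algebraMap (PowerSeries ℂ) (FractionRing (PowerSeries ℂ)) b ≠ 0 := by
    rw [Ne, FaithfulSMul.algebraMap_eq_zero_iff]
    exact hb0
  set y := algebraMap (PowerSeries ℂ) (FractionRing (PowerSeries ℂ)) a /
    algebraMap (PowerSeries ℂ) (FractionRing (PowerSeries ℂ)) b with hy
  have h1 : y * algebraMap (PowerSeries ℂ) (FractionRing (PowerSeries ℂ)) b =
      algebraMap (PowerSeries ℂ) (FractionRing (PowerSeries ℂ)) a := div_mul_cancel₀ _ hbK
  have h2 := congrArg D h1
  rw [D.leibniz, hx, smul_zero, add_zero, hD, hD, smul_eq_mul] at h2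
  have h3 : PowerSeries.derivative ℂ a * b = a * PowerSeries.derivative ℂ b := by
    apply IsFractionRing.injective (PowerSeries ℂ) (FractionRing (PowerSeries ℂ))
    rw [map_mul, map_mul, ← h2, ← h1]
    ring
  obtain ⟨c, hc⟩ := prop_of hb0 h3
  refine ⟨c, ?_⟩
  rw [hy, hc, map_mul, mul_div_cancel_right₀ _ hbK,
    IsScalarTower.algebraMap_apply ℂ (PowerSeries ℂ) (FractionRing (PowerSeries ℂ))]
  rfl

end Pool.Agent.Y884.IL
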